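import Pool.Agent.ASD.Stmts4
import Pool.Agent.Helper10_ASO.W12B
import Pool.Agent.Helper62_ASO.LBS
import Pool.Agent.Helper9_ASO.MBI
import Pool.Agent.Helper70_ASO.RTYA

/-!
# Row TFA of the squad ASD: the evaluation of `T5`
-/

open scoped BigOperators

set_option linter.unusedSectionVars false

noncomputable section

namespace Pool.Agent.PP.SD.H45

open Pool.Agent.Helper51_AWC Pool.Agent.Helper79_WRA Pool.Agent.PP Pool.Agent.PP.KF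
open Pool.Agent.PP.K9 Pool.Agent.PP.K9.H97 Pool.Agent.PP.H75 Pool.Agent.PP.T3
open Pool.Agent.PP.SO Pool.Agent.PP.SD

attribute [local instance] Ideal.Quotient.field

/-! ### the relation `y⁻¹ a ^ k y = a ^ k z ^ i` -/

section rel

variable {G : Type} [Group G]

/-- the relation -/
def Rr (a : G) (k i : ℕ) (z y : G) : Prop := y⁻¹ * a ^ k * y = a ^ k * z ^ i

theorem rr_conj {a v : G} (hv : Commute v a) (k i : ℕ) (z y : G) :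
    Rr a k i (v * z * v⁻¹) (y * v⁻¹) ↔ Rr a k i z y := by
  have h1 : (y * v⁻¹)⁻¹ * a ^ k * (y * v⁻¹) = v * (y⁻¹ * a ^ k * y) * v⁻¹ := by group
  have h2 : a ^ k * (v * z * v⁻¹) ^ i = v * (a ^ k * z ^ i) * v⁻¹ := by
    rw [conj_pow]
    have h3 : v * a ^ k = a ^ k * v := (hv.pow_right k).eq
    calc a ^ k * (v * z ^ i * v⁻¹) = (a ^ k * v) * z ^ i * v⁻¹ := by group
      _ = v * (a ^ k * z ^ i) * v⁻¹ := by rw [← h3]; group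
  unfold Rr
  rw [h1, h2]
  constructor
  · intro h
    exact mul_left_cancel (mul_right_cancel h)
  · intro h
    rw [h]

theorem rr_left {a v : G} (hv : Commute v a) (k i : ℕ) (z y : G) :
    Rr a k i z (v * y) ↔ Rr a k i z y := by
  have h3 : v⁻¹ * a ^ k * v = a ^ k := by
    rw [mul_assoc, ← (hv.pow_right k).eq]
    group
  have h1 : (v * y)⁻¹ * a ^ k * (v * y) = y⁻¹ * a ^ k * y := by
    calc (v * y)⁻¹ * a ^ k * (v * y) = y⁻¹ * (v⁻¹ * a ^ k * v) * y := by group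
      _ = y⁻¹ * a ^ k * y := by rw [h3]
  unfold Rr
  rw [h1]

/-- powers of the relation -/
theorem rr_pow {a z y : G} (hz : Commute a z) {k i : ℕ} (h : Rr a k i z y) (j : ℕ) :
    Rr a (k * j) (i * j) z y := by
  unfold Rr at h ⊢
  have h1 : y⁻¹ * a ^ (k * j) * y = (y⁻¹ * a ^ k * y) ^ j := by
    have h2 := conj_pow (i := j) (a := y⁻¹) (b := a ^ k)
    rw [inv_inv] at h2
    rw [h2, pow_mul]
  rw [h1, h, (hz.pow_pow k i).mul_pow, ← pow_mul, ← pow_mul]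

/-- the inverse modulo `ℓ` -/
theorem ex_inv {ℓ : ℕ} [Fact ℓ.Prime] {k : ℕ} (hk : ¬ ℓ ∣ k) : ∃ k', k * k' ≡ 1 [MOD ℓ] := by
  have hp : ℓ.Prime := Fact.out
  have h1 : Nat.Coprime k ℓ := ((hp.coprime_iff_not_dvd).2 hk).symm
  obtain ⟨k', -, hk'⟩ := Nat.exists_mul_mod_eq_one_of_coprime h1 hp.one_lt
  refine ⟨k', ?_⟩
  unfold Nat.ModEq
  rw [hk', Nat.mod_eq_of_lt hp.one_lt]

/-- a power of `a ^ k` -/
theorem pow_inv {ℓ : ℕ} {a : G} (ha : a ^ ℓ = 1) {k k' : ℕ} (h : k * k' ≡ 1 [MOD ℓ]) :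
    (a ^ k) ^ k' = a := by
  have h2 : a ^ (k * k') = a ^ 1 := by
    rw [pow_eq_pow_iff_modEq]
    exact h.of_dvd (orderOf_dvd_of_pow_eq_one ha)
  rw [← pow_mul, h2, pow_one]

/-- from `k` prime to `ℓ` to `1` -/
theorem rr_one {ℓ : ℕ} [Fact ℓ.Prime] {a z y : G} (ha : a ^ ℓ = 1) (hz : Commute a z) {k i : ℕ}
    (hk : ¬ ℓ ∣ k) (h : Rr a k i z y) : ∃ j, Rr a 1 j z y := by
  obtain ⟨k', hk'⟩ := ex_inv hk
  refine ⟨i * k', ?_⟩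
  have h1 := rr_pow hz h k'
  unfold Rr at h1 ⊢
  rw [pow_mul, pow_inv ha hk'] at h1
  rw [pow_one]
  exact h1

end rel

/-! ### the `ℓ`-part -/

section pe

variable {ℓ n m : ℕ} {G : Type} [Group G]

/-- the elements with a given `ℓ`-part -/
theorem part_iff [Finite G] [Fact ℓ.Prime] (h : PE ℓ n m G) {z x : G} (hz : El ℓ z) :
    (z * x) ^ m = z ↔ x * z = z * x ∧ Reg ℓ x := by
  have hp : ℓ.Prime := Fact.out
  constructor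
  · intro h1
    have h2 : Commute (z * x) ((z * x) ^ m) := (Commute.refl _).pow_right m
    rw [h1] at h2
    have h3 : x * z = z * x := by
      have h4 : z * x * z = z * (z * x) := h2.eq
      rw [mul_assoc] at h4
      exact mul_left_cancel h4
    refine ⟨h3, ?_⟩
    have hc : Commute z x := h3.symm
    rw [hc.mul_pow, (h.el z hz).1] at h1
    have h4 : x ^ m = 1 := by
      have h5 : z * x ^ m = z * 1 := by rw [h1, mul_one]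
      exact mul_left_cancel h5
    have h5 : orderOf x ∣ m := orderOf_dvd_of_pow_eq_one h4
    unfold Reg
    refine Nat.Coprime.coprime_dvd_left h5 ?_
    rw [Nat.coprime_comm, hp.coprime_iff_not_dvd]
    intro h6
    have h7 := h.md
    rw [Nat.mod_eq_zero_of_dvd h6] at h7
    exact zero_ne_one h7
  · rintro ⟨h1, h2⟩
    have hc : Commute z x := h1.symm
    rw [hc.mul_pow, (h.el z hz).1, h.rg x h2, mul_one]

end pe

/-! ### the group `V₀` -/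

section vee

variable {V₀ : Type} [CommGroup V₀] {ℓ : ℕ} {E₀ : Subgroup (MulAut V₀)}

theorem sup_top [Finite V₀] [Fact ℓ.Prime] (hF : Fq ℓ V₀ E₀) {κ w : V₀} (hw : w ≠ 1)
    (hκ : κ ∉ Subgroup.zpowers w) : Subgroup.zpowers w ⊔ Subgroup.zpowers κ = ⊤ := by
  have hp : ℓ.Prime := Fact.out
  have ho : orderOf w = ℓ := orderOf_eq_prime (hF.ex w) hw
  have h1 : Nat.card (Subgroup.zpowers w) = ℓ := by rw [Nat.card_zpowers, ho]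
  have h2 : Subgroup.zpowers w < Subgroup.zpowers w ⊔ Subgroup.zpowers κ := by
    refine lt_of_le_of_ne le_sup_left fun h => hκ ?_
    rw [h]
    exact Subgroup.mem_sup_right (Subgroup.mem_zpowers κ)
  have h3 : Nat.card (Subgroup.zpowers w) ∣
      Nat.card (Subgroup.zpowers w ⊔ Subgroup.zpowers κ : Subgroup V₀) :=
    Subgroup.card_dvd_of_le h2.le
  have h4 : Nat.card (Subgroup.zpowers w ⊔ Subgroup.zpowers κ : Subgroup V₀) ∣ ℓ ^ 2 := by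
    rw [← hF.cd]
    exact Subgroup.card_subgroup_dvd_card _
  obtain ⟨k, hk, hk2⟩ := (Nat.dvd_prime_pow hp).1 h4
  apply Subgroup.eq_top_of_card_eq
  rw [hF.cd]
  have h5 : k = 2 := by
    have h6 : Nat.card (Subgroup.zpowers w ⊔ Subgroup.zpowers κ : Subgroup V₀) ≠ ℓ := by
      intro h7
      have h8 := Subgroup.eq_of_le_of_card_ge h2.le (by rw [h7, h1])
      exact h2.ne h8
    interval_cases k
    · exfalso
      rw [hk2, pow_zero, h1] at h3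
      exact hp.one_lt.ne' (Nat.dvd_one.1 h3)
    · exfalso
      rw [hk2, pow_one] at h6
      exact h6 rfl
    · rfl
  rw [hk2, h5]

/-- `p ^ k = 1` iff `ℓ ∣ k` -/
theorem pow_one_iff [Fact ℓ.Prime] (hF : Fq ℓ V₀ E₀) {p : V₀} (hp : p ≠ 1) (k : ℕ) :
    p ^ k = 1 ↔ ℓ ∣ k := by
  rw [← orderOf_eq_prime (hF.ex p) hp, orderOf_dvd_iff_pow_eq_one]

end vee

/-! ### the types -/

section types

variable {V₀ : Type} [CommGroup V₀] {ℓ n : ℕ} {E₀ : Subgroup (MulAut V₀)} {κ w : V₀}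
  {σ : MulAut V₀}

theorem fre_of {τ : Set (SO.SS n V₀)} (h : τ ⊆ TP n κ w σ) : Fre τ := by
  intro s hs _ h2
  obtain ⟨h3, h4⟩ := h hs
  rw [h2, pow_zero] at h3 h4
  exact ⟨h3, h4⟩

theorem hm_one {ρ : V₀ → ZMod ℓ} (h : Hm ρ) : ρ 1 = 0 := by
  have h1 := h 1 1
  rw [mul_one] at h1
  exact left_eq_add.1 h1

theorem pL_bot [Fact ℓ.Prime] (hF : Fq ℓ V₀ E₀) (hkw : κ * w ≠ 1) {L : Set (SO.SS n V₀)}
    (h : L ⊆ TP n κ w σ) : pL L = ⊥ ↔ ∀ s ∈ L, ℓ ∣ (s.2.1 : ℕ) := by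
  unfold pL
  rw [Subgroup.closure_eq_bot_iff]
  have hkw' : (κ * w)⁻¹ ≠ 1 := fun h => hkw (inv_eq_one.1 h)
  constructor
  · intro h1 s hs
    have h2 : s.2.2.1 = 1 := h1 ⟨s, hs, rfl⟩
    rw [(h hs).1] at h2
    exact (pow_one_iff hF hkw' _).1 h2
  · rintro h1 _ ⟨s, hs, rfl⟩
    show s.2.2.1 = 1
    rw [(h hs).1]
    exact (pow_one_iff hF hkw' _).2 (h1 s hs)

theorem ak_eq {s : SO.SS n V₀} (h : s ∈ TP n κ w σ) :
    κ ^ (s.2.1 : ℕ) * s.2.2.1 = w⁻¹ ^ (s.2.1 : ℕ) := by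
  rw [h.1, ← mul_pow]
  congr 1
  rw [mul_inv_rev, mul_comm w⁻¹ κ⁻¹, mul_inv_cancel_left]

theorem aL_eq [Fact ℓ.Prime] (hF : Fq ℓ V₀ E₀) (hkw : κ * w ≠ 1) {L : Set (SO.SS n V₀)}
    (h : L ⊆ TP n κ w σ) (hb : pL L ≠ ⊥) : aL κ L = Subgroup.zpowers w := by
  apply le_antisymm
  · unfold aL
    rw [Subgroup.closure_le]
    rintro _ ⟨s, hs, rfl⟩
    rw [ak_eq (h hs)]
    exact Subgroup.pow_mem _ (Subgroup.inv_mem _ (Subgroup.mem_zpowers w)) _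
  · rw [Ne, pL_bot hF hkw h] at hb
    push Not at hb
    obtain ⟨s, hs, hk⟩ := hb
    obtain ⟨k', hk'⟩ := ex_inv hk
    rw [Subgroup.zpowers_le]
    have h1 : w⁻¹ ^ (s.2.1 : ℕ) ∈ aL κ L := by
      rw [← ak_eq (h hs)]
      exact Subgroup.subset_closure ⟨s, hs, rfl⟩
    have h2 := Subgroup.pow_mem _ h1 k'
    rw [pow_inv (hF.ex w⁻¹) hk'] at h2
    exact (Subgroup.inv_mem_iff _).1 h2

variable {ρ₁ ρ₂ : V₀ → ZMod ℓ} {x₁ x₂ : V₀ → ℤ} {c d : V₀} {F₁₃ F₁₂ : Set (SO.SS n V₀) → ℚ}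
  {K : Set (Fin n × V₀ × V₀) → ℚ}

theorem z12_of (hF : Fq ℓ V₀ E₀) (h₁ : Hm ρ₁) (h₂ : Hm ρ₂)
    (hX : FX ℓ n ρ₁ ρ₂ x₁ x₂ c d F₁₃ F₁₂ K) {τ : Set (SO.SS n V₀)} (h : τ ⊆ TP n κ w σ)
    (hd : ∀ s ∈ τ, ℓ ∣ (s.2.1 : ℕ)) : F₁₂ τ = (x₁ c⁻¹ * x₂ d⁻¹ : ℤ) / (ℓ : ℚ) ^ 2 := by
  apply hX.z12 τ (fre_of h)
  intro s hs
  obtain ⟨h3, h4⟩ := h hs
  obtain ⟨k, hk⟩ := hd s hs
  have h5 : ∀ v : V₀, v ^ (s.2.1 : ℕ) = 1 := by
    intro v
    rw [hk, pow_mul, hF.ex, one_pow]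
  rw [h5] at h3 h4
  rw [h3, h4]
  exact ⟨hm_one h₁, hm_one h₂⟩

/-- the sum over the sets with `pL ≠ ⊥` -/
theorem mob_sum [Finite V₀] [Fact ℓ.Prime] (hF : Fq ℓ V₀ E₀) (h₁ : Hm ρ₁) (h₂ : Hm ρ₂)
    (hX : FX ℓ n ρ₁ ρ₂ x₁ x₂ c d F₁₃ F₁₂ K) (hkw : κ * w ≠ 1)
    [Fintype (Set (SO.SS n V₀))] {T : Set (SO.SS n V₀)} (h : T ⊆ TP n κ w σ)
    [∀ L : Set (SO.SS n V₀), Decidable (L ⊆ T ∧ pL L ≠ ⊥)] :
    ∑ L : Set (SO.SS n V₀), (if L ⊆ T ∧ pL L ≠ ⊥ then mob F₁₂ L else 0) =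
      F₁₂ T - (x₁ c⁻¹ * x₂ d⁻¹ : ℤ) / (ℓ : ℚ) ^ 2 := by
  classical
  have h3 := SO.H62.mbi_sum SO.H9.mbi F₁₂ T
  have h4 := SO.H62.mbi_sum SO.H9.mbi F₁₂ {s | s ∈ T ∧ ℓ ∣ (s.2.1 : ℕ)}
  rw [z12_of hF h₁ h₂ hX (τ := {s | s ∈ T ∧ ℓ ∣ (s.2.1 : ℕ)}) (fun s hs => h hs.1)
    (fun s hs => hs.2)] at h4
  rw [h3, h4, ← Finset.sum_sub_distrib]
  refine Finset.sum_congr rfl fun L _ => ?_
  by_cases hL : L ⊆ T
  · have h5 : L ⊆ {s | s ∈ T ∧ ℓ ∣ (s.2.1 : ℕ)} ↔ pL L = ⊥ := by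
      rw [pL_bot hF hkw (hL.trans h)]
      exact ⟨fun h6 s hs => (h6 hs).2, fun h6 s hs => ⟨hL hs, h6 s hs⟩⟩
    by_cases h6 : pL L = ⊥
    · rw [if_neg (fun h7 => h7.2 h6), if_pos hL, if_pos (h5.2 h6), sub_self]
    · rw [if_pos ⟨hL, h6⟩, if_pos hL, if_neg (fun h7 => h6 (h5.1 h7)), sub_zero]
  · rw [if_neg (fun h7 => hL h7.1), if_neg hL, if_neg (fun h7 => hL fun s hs => (h7 hs).1),
      sub_zero]

end types

/-! ### the values of `F₁₂` -/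

section vals

variable {V₀ G : Type} [CommGroup V₀] [Group G] {ℓ n : ℕ} {E₀ : Subgroup (MulAut V₀)} {κ w : V₀}
  {σ : MulAut V₀} {ρ₁ ρ₂ : V₀ → ZMod ℓ} {x₁ x₂ : V₀ → ℤ} {c d : V₀}
  {F₁₃ F₁₂ : Set (SO.SS n V₀) → ℚ} {K : Set (Fin n × V₀ × V₀) → ℚ}

/-- the set `τ(z, y)` -/
def ta (n : ℕ) (κ w : V₀) (σ : MulAut V₀) (a z y : G) : Set (SO.SS n V₀) :=
  {s | s ∈ TP n κ w σ ∧ Rr a (s.2.1 : ℕ) (s.1 : ℕ) z y}

/-- `y` commutes with `a` -/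
theorem ta_comm (hn : 1 < n) (h₁ : Hm ρ₁) (h₂ : Hm ρ₂)
    (hX : FX ℓ n ρ₁ ρ₂ x₁ x₂ c d F₁₃ F₁₂ K) {a z y : G} (hy : Commute y a) :
    F₁₂ (ta n κ w σ a z y) - (x₁ c⁻¹ * x₂ d⁻¹ : ℤ) / (ℓ : ℚ) ^ 2 =
      -((x₁ (κ * w)⁻¹ * x₂ (σ⁻¹ (κ * w))⁻¹ : ℤ) / (ℓ : ℚ) ^ 2) := by
  have hR : ∀ k i : ℕ, Rr a k i z y ↔ z ^ i = 1 := by
    intro k i
    have h1 : y⁻¹ * a ^ k * y = a ^ k := by
      rw [mul_assoc, ← (hy.pow_right k).eq]
      group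
    unfold Rr
    rw [h1]
    exact left_eq_mul
  have hsub : ta n κ w σ a z y ⊆ TP n κ w σ := fun s hs => hs.1
  rw [hX.prod _ (fre_of hsub)]
  · rw [hX.K1 _ (κ * w)⁻¹ (σ⁻¹ (κ * w))⁻¹]
    · ring
    · refine ⟨(⟨1, hn⟩, (κ * w)⁻¹, (σ⁻¹ (κ * w))⁻¹),
        ⟨(⟨0, by omega⟩, ⟨1, hn⟩, (κ * w)⁻¹, (σ⁻¹ (κ * w))⁻¹), ⟨⟨?_, ?_⟩, ?_⟩, rfl⟩, rfl⟩
      · exact (pow_one _).symm
      · exact (pow_one _).symm
      · exact (hR 1 0).2 (pow_zero z)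
    · rintro _ ⟨s, hs, rfl⟩ h3
      obtain ⟨h4, h5⟩ := hs.1
      rw [h3, pow_one] at h4 h5
      exact Prod.ext h4 h5
  · intro s hs
    refine ⟨(⟨0, by omega⟩, s.2), ⟨hs.1, ?_⟩, rfl, rfl⟩
    exact (hR _ 0).2 (pow_zero z)
  · intro s hs h3
    obtain ⟨h4, h5⟩ := hs.1
    rw [h3, pow_zero] at h4 h5
    rw [h4, h5]
    exact ⟨hm_one h₁, hm_one h₂⟩

/-- no relation -/
theorem ta_none [Fact ℓ.Prime] (hF : Fq ℓ V₀ E₀) (h₁ : Hm ρ₁) (h₂ : Hm ρ₂)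
    (hX : FX ℓ n ρ₁ ρ₂ x₁ x₂ c d F₁₃ F₁₂ K) {a z y : G} (ha : a ^ ℓ = 1) (hz : Commute a z)
    (hn : ¬ ∃ j, Rr a 1 j z y) :
    F₁₂ (ta n κ w σ a z y) - (x₁ c⁻¹ * x₂ d⁻¹ : ℤ) / (ℓ : ℚ) ^ 2 = 0 := by
  rw [z12_of hF h₁ h₂ hX (fun s hs => hs.1), sub_self]
  intro s hs
  by_contra h
  exact hn (rr_one ha hz h hs.2)

/-- `z` of order `ℓ` -/
theorem ta_ord [Fact ℓ.Prime] {a z y : G} (hz : Commute a z) {i₀ : ℕ} (h : Rr a 1 i₀ z y)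
    (hz1 : z ^ ℓ = 1) (hz2 : z ^ i₀ ≠ 1) :
    ta n κ w σ a z y = {s | s.2.2.1 = (κ * w)⁻¹ ^ (s.2.1 : ℕ) ∧
      s.2.2.2 = (σ⁻¹ (κ * w))⁻¹ ^ (s.2.1 : ℕ) ∧ (s.1 : ℕ) ≡ i₀ * (s.2.1 : ℕ) [MOD ℓ]} := by
  have hz3 : z ≠ 1 := by
    rintro rfl
    exact hz2 (one_pow _)
  have ho : orderOf z = ℓ := orderOf_eq_prime hz1 hz3
  ext s
  have h1 : Rr a (s.2.1 : ℕ) (s.1 : ℕ) z y ↔ (s.1 : ℕ) ≡ i₀ * (s.2.1 : ℕ) [MOD ℓ] := by
    have h2 := rr_pow hz h (s.2.1 : ℕ)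
    rw [one_mul] at h2
    unfold Rr at h2 ⊢
    rw [h2, mul_right_inj, pow_eq_pow_iff_modEq, ho]
    exact ⟨fun h => h.symm, fun h => h.symm⟩
  constructor
  · rintro ⟨⟨h3, h4⟩, h5⟩
    exact ⟨h3, h4, h1.1 h5⟩
  · rintro ⟨h3, h4, h5⟩
    exact ⟨⟨h3, h4⟩, h1.2 h5⟩

open Classical in
/-- the remaining part vanishes -/
theorem key [Fact ℓ.Prime] (hF : Fq ℓ V₀ E₀) (hn : 1 < n) (h₁ : Hm ρ₁) (h₂ : Hm ρ₂)
    (hX : FX ℓ n ρ₁ ρ₂ x₁ x₂ c d F₁₃ F₁₂ K) {a z y : G} (ha : a ^ ℓ = 1) (hz : Commute a z)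
    (hne : ((F₁₂ (ta n κ w σ a z y) - (x₁ c⁻¹ * x₂ d⁻¹ : ℤ) / (ℓ : ℚ) ^ 2 : ℚ) : ℂ) -
      (if Commute y a then
        -(((x₁ (κ * w)⁻¹ * x₂ (σ⁻¹ (κ * w))⁻¹ : ℤ) : ℂ) / ℓ ^ 2) else 0) -
      ∑ i₀ ∈ Finset.Icc 1 (ℓ - 1), ((F₁₂ {s | s.2.2.1 = (κ * w)⁻¹ ^ (s.2.1 : ℕ) ∧
        s.2.2.2 = (σ⁻¹ (κ * w))⁻¹ ^ (s.2.1 : ℕ) ∧ (s.1 : ℕ) ≡ i₀ * (s.2.1 : ℕ) [MOD ℓ]} -
        (x₁ c⁻¹ * x₂ d⁻¹ : ℤ) / (ℓ : ℚ) ^ 2 : ℚ) : ℂ) *
        (if Rr a 1 i₀ z y ∧ z ^ i₀ ≠ 1 ∧ z ^ ℓ = 1 then 1 else 0) ≠ 0) :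
    z ^ ℓ ≠ 1 ∧ ∃ j, Rr a 1 j z y := by
  have hp : ℓ.Prime := Fact.out
  by_contra hc
  apply hne
  by_cases hj : ∃ j, Rr a 1 j z y
  · by_cases hy : Commute y a
    · have h3 : ∀ i, Rr a 1 i z y → z ^ i = 1 := by
        intro i h
        unfold Rr at h
        rw [pow_one, mul_assoc, ← hy.eq, inv_mul_cancel_left] at h
        exact left_eq_mul.1 h
      rw [if_pos hy, ta_comm hn h₁ h₂ hX hy, Finset.sum_eq_zero]
      · push_cast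
        ring
      · intro i _
        rw [if_neg (fun h => h.2.1 (h3 i h.1)), mul_zero]
    · have hz1 : z ^ ℓ = 1 := by
        by_contra h
        exact hc ⟨h, hj⟩
      obtain ⟨j, hj⟩ := hj
      have hmod : z ^ (j % ℓ) = z ^ j := by
        rw [pow_eq_pow_iff_modEq]
        exact (Nat.mod_modEq j ℓ).of_dvd (orderOf_dvd_of_pow_eq_one hz1)
      have hR : Rr a 1 (j % ℓ) z y := by
        unfold Rr at hj ⊢
        rw [hmod]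
        exact hj
      have hz2 : z ^ (j % ℓ) ≠ 1 := by
        intro h
        apply hy
        unfold Rr at hR
        rw [h, mul_one, pow_one] at hR
        show y * a = a * y
        have h4 : y * (y⁻¹ * a * y) = y * a := by rw [hR]
        rw [← h4]
        group
      have hi0 : j % ℓ ≠ 0 := by
        intro h
        rw [h, pow_zero] at hz2
        exact hz2 rfl
      have hilt : j % ℓ < ℓ := Nat.mod_lt _ hp.pos
      have hz3 : z ≠ 1 := by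
        rintro rfl
        exact hz2 (one_pow _)
      have ho : orderOf z = ℓ := orderOf_eq_prime hz1 hz3
      rw [if_neg hy, Finset.sum_eq_single (j % ℓ), if_pos ⟨hR, hz2, hz1⟩,
        ta_ord hz hR hz1 hz2]
      · ring
      · intro i hi hne'
        rw [if_neg, mul_zero]
        rintro ⟨h5, -, -⟩
        apply hne'
        unfold Rr at h5 hR
        rw [hR] at h5
        have h6 := mul_left_cancel h5
        rw [pow_eq_pow_iff_modEq, ho] at h6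
        rw [Finset.mem_Icc] at hi
        unfold Nat.ModEq at h6
        rw [Nat.mod_mod, Nat.mod_eq_of_lt (show i < ℓ by omega)] at h6
        exact h6.symm
      · intro h
        exfalso
        apply h
        rw [Finset.mem_Icc]
        omega
  · have hy : ¬ Commute y a := by
      intro h
      apply hj
      refine ⟨0, ?_⟩
      unfold Rr
      rw [pow_one, pow_zero, mul_one, mul_assoc, ← h.eq, inv_mul_cancel_left]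
    rw [ta_none hF h₁ h₂ hX ha hz hj, if_neg hy, Finset.sum_eq_zero]
    · simp
    · intro i _
      rw [if_neg (fun h => hj ⟨i, h.1⟩), mul_zero]

end vals

/-! ### the sums -/

section sums

variable {V₀ G : Type} [CommGroup V₀] [Finite V₀] [Group G] [Fintype G]
  {M : Ideal (integralClosure ℤ ℂ)} [M.IsMaximal] {ℓ n m : ℕ} {E₀ : Subgroup (MulAut V₀)}
  {κ w : V₀} {σ : MulAut V₀} {ρ₁ ρ₂ : V₀ → ZMod ℓ} {x₁ x₂ : V₀ → ℤ} {c d : V₀}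
  {F₁₃ F₁₂ : Set (SO.SS n V₀) → ℚ} {K : Set (Fin n × V₀ × V₀) → ℚ}

open Classical in
/-- the weighted sum -/
def Sf (B : Bk (FF M) V₀ G) (m : ℕ) (κ : V₀) (A : Subgroup V₀) (Φ : G → G → ℂ) : ℂ :=
  (Nat.card (B.C ⊤) : ℂ)⁻¹ * ∑ t : G, bh B ⊤ t * ∑ x : G × G,
    (if SO.kap x.1 x.2 = B.i κ * t ∧ x.1 ∈ B.C A then Φ (x.1 ^ m) x.2 else 0)

theorem Sf_sub (B : Bk (FF M) V₀ G) (A : Subgroup V₀) (Φ Ψ : G → G → ℂ) :
    Sf B m κ A (fun z y => Φ z y - Ψ z y) = Sf B m κ A Φ - Sf B m κ A Ψ := by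
  classical
  unfold Sf
  rw [← mul_sub, ← Finset.sum_sub_distrib]
  congr 1
  refine Finset.sum_congr rfl fun t _ => ?_
  rw [← mul_sub, ← Finset.sum_sub_distrib]
  congr 1
  refine Finset.sum_congr rfl fun x _ => ?_
  split_ifs
  · rfl
  · rw [sub_zero]

theorem memC (B : Bk (FF M) V₀ G) (w : V₀) (x : G) :
    x ∈ B.C (Subgroup.zpowers w) ↔ Commute x (B.i w)⁻¹ := by
  unfold Bk.C
  rw [MonoidHom.map_zpowers, Subgroup.mem_centralizer_iff]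
  constructor
  · intro h
    have h1 : B.i w * x = x * B.i w := h _ (Subgroup.mem_zpowers _)
    exact (show Commute x (B.i w) from h1.symm).inv_right
  · intro h g hg
    obtain ⟨k, rfl⟩ := Subgroup.mem_zpowers_iff.1 hg
    have h1 : Commute x (B.i w) := by
      have h2 := h.inv_right
      rwa [inv_inv] at h2
    exact (h1.zpow_right k).eq.symm

/-- Step 1: `T5` as a weighted sum -/
theorem t5_eq [Fact ℓ.Prime] (hF : Fq ℓ V₀ E₀) (h₁ : Hm ρ₁) (h₂ : Hm ρ₂)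
    (hX : FX ℓ n ρ₁ ρ₂ x₁ x₂ c d F₁₃ F₁₂ K) (B : Bk (FF M) V₀ G) (hw : w ≠ 1)
    (hκ : κ ∉ Subgroup.zpowers w) :
    T5 B m κ w σ F₁₂ = Sf B m κ (Subgroup.zpowers w) (fun z y =>
      ((F₁₂ (ta n κ w σ (B.i w)⁻¹ z y) - (x₁ c⁻¹ * x₂ d⁻¹ : ℤ) / (ℓ : ℚ) ^ 2 : ℚ) : ℂ)) := by
  classical
  have : Fintype (Set (SO.SS n V₀)) := Fintype.ofFinite _
  have hkw : κ * w ≠ 1 := by
    intro h
    apply hκ
    rw [eq_inv_of_mul_eq_one_left h]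
    exact Subgroup.inv_mem _ (Subgroup.mem_zpowers w)
  obtain ⟨a, ha⟩ : ∃ a, a = (B.i w)⁻¹ := ⟨_, rfl⟩
  rw [← ha]
  have hal : a ^ ℓ = 1 := by rw [ha, inv_pow, ← map_pow, hF.ex, map_one, inv_one]
  -- the types of the pairs
  let T : G × G → Set (SO.SS n V₀) := fun x =>
    {s | s ∈ TP n κ w σ ∧ Commute (a ^ (s.2.1 : ℕ)) x.1 ∧
      Rr a (s.2.1 : ℕ) (s.1 : ℕ) (x.1 ^ m) x.2}
  have hTsub : ∀ x, T x ⊆ TP n κ w σ := fun x s hs => hs.1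
  have hterm : ∀ L : Set (SO.SS n V₀),
      Set.indicator {L : Set (SO.SS n V₀) | L ⊆ TP n κ w σ ∧ pL L ≠ ⊥}
        (fun L => ((mob F₁₂ L : ℚ) : ℂ) * HK B m κ L) L =
      (Nat.card (B.C ⊤) : ℂ)⁻¹ * ∑ t : G, bh B ⊤ t * ∑ x : G × G,
        (if SO.kap x.1 x.2 = B.i κ * t then
          (if L ⊆ T x ∧ pL L ≠ ⊥ then ((mob F₁₂ L : ℚ) : ℂ) else 0) else 0) := by
    intro L
    rw [Set.indicator_apply]
    by_cases hL : L ⊆ TP n κ w σ ∧ pL L ≠ ⊥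
    · rw [if_pos (show L ∈ {L : Set (SO.SS n V₀) | L ⊆ TP n κ w σ ∧ pL L ≠ ⊥} from hL)]
      have e1 : aL κ L ⊔ Subgroup.zpowers κ = ⊤ := by
        rw [aL_eq hF hkw hL.1 hL.2, sup_top hF hw hκ]
      unfold HK
      rw [e1, finsum_eq_sum_of_fintype, mul_left_comm, Finset.mul_sum]
      congr 1
      refine Finset.sum_congr rfl fun t _ => ?_
      rw [mul_left_comm]
      congr 1
      have e2 := H10W.ncard_sum (fun v : G × G => SO.kap v.1 v.2 = B.i κ * t ∧ ∀ s ∈ L,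
        B.i (κ ^ (s.2.1 : ℕ) * s.2.2.1) * v.1 = v.1 * B.i (κ ^ (s.2.1 : ℕ) * s.2.2.1) ∧
        v.2⁻¹ * B.i (κ ^ (s.2.1 : ℕ) * s.2.2.1) * v.2 =
          B.i (κ ^ (s.2.1 : ℕ) * s.2.2.1) * (v.1 ^ m) ^ (s.1 : ℕ))
      rw [e2, Finset.mul_sum]
      refine Finset.sum_congr rfl fun x _ => ?_
      have e3 : (∀ s ∈ L,
        B.i (κ ^ (s.2.1 : ℕ) * s.2.2.1) * x.1 = x.1 * B.i (κ ^ (s.2.1 : ℕ) * s.2.2.1) ∧
        x.2⁻¹ * B.i (κ ^ (s.2.1 : ℕ) * s.2.2.1) * x.2 =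
          B.i (κ ^ (s.2.1 : ℕ) * s.2.2.1) * (x.1 ^ m) ^ (s.1 : ℕ)) ↔ L ⊆ T x := by
        have e4 : ∀ s ∈ L, B.i (κ ^ (s.2.1 : ℕ) * s.2.2.1) = a ^ (s.2.1 : ℕ) := by
          intro s hs
          rw [ak_eq (hL.1 hs), map_pow, map_inv, ha]
        constructor
        · intro h s hs
          obtain ⟨h5, h6⟩ := h s hs
          rw [e4 s hs] at h5 h6
          exact ⟨hL.1 hs, h5, h6⟩
        · intro h s hs
          obtain ⟨-, h5, h6⟩ := h hs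
          rw [e4 s hs]
          exact ⟨h5, h6⟩
      by_cases hk : SO.kap x.1 x.2 = B.i κ * t
      · by_cases h7 : L ⊆ T x
        · rw [if_pos ⟨hk, e3.2 h7⟩, if_pos hk, if_pos ⟨h7, hL.2⟩, mul_one]
        · rw [if_neg (fun h => h7 (e3.1 h.2)), if_pos hk, if_neg (fun h => h7 h.1), mul_zero]
      · rw [if_neg (fun h => hk h.1), if_neg hk, mul_zero]
    · rw [if_neg (show L ∉ {L : Set (SO.SS n V₀) | L ⊆ TP n κ w σ ∧ pL L ≠ ⊥} from hL)]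
      symm
      rw [Finset.sum_eq_zero, mul_zero]
      intro t _
      rw [Finset.sum_eq_zero, mul_zero]
      intro x _
      split_ifs with h3 h4
      · exact absurd ⟨h4.1.trans (hTsub x), h4.2⟩ hL
      · rfl
      · rfl
  unfold T5
  rw [finsum_mem_def, finsum_eq_sum_of_fintype, Finset.sum_congr rfl fun L _ => hterm L,
    ← Finset.mul_sum]
  unfold Sf
  congr 1
  rw [Finset.sum_comm]
  refine Finset.sum_congr rfl fun t _ => ?_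
  rw [← Finset.mul_sum, Finset.sum_comm]
  congr 1
  refine Finset.sum_congr rfl fun x _ => ?_
  by_cases hk : SO.kap x.1 x.2 = B.i κ * t
  · have e5 : ∑ L : Set (SO.SS n V₀), (if SO.kap x.1 x.2 = B.i κ * t then
        (if L ⊆ T x ∧ pL L ≠ ⊥ then ((mob F₁₂ L : ℚ) : ℂ) else 0) else 0) =
        ((F₁₂ (T x) - (x₁ c⁻¹ * x₂ d⁻¹ : ℤ) / (ℓ : ℚ) ^ 2 : ℚ) : ℂ) := by
      rw [← mob_sum hF h₁ h₂ hX hkw (hTsub x), Rat.cast_sum]
      refine Finset.sum_congr rfl fun L _ => ?_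
      rw [if_pos hk]
      split_ifs
      · rfl
      · rw [Rat.cast_zero]
    rw [e5]
    by_cases hx : x.1 ∈ B.C (Subgroup.zpowers w)
    · rw [if_pos ⟨hk, hx⟩]
      have hx' : Commute x.1 a := by
        rw [ha]
        exact (memC B w x.1).1 hx
      have e6 : T x = ta n κ w σ a (x.1 ^ m) x.2 := by
        ext s
        exact ⟨fun h => ⟨h.1, h.2.2⟩, fun h => ⟨h.1, (hx'.pow_right _).symm, h.2⟩⟩
      rw [e6]
    · rw [if_neg (fun h => hx h.2)]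
      rw [z12_of hF h₁ h₂ hX (hTsub x), sub_self, Rat.cast_zero]
      intro s hs
      by_contra hd
      apply hx
      rw [memC, ← ha]
      obtain ⟨k', hk'⟩ := ex_inv hd
      have h8 := (hs.2.1).pow_left k'
      rw [pow_inv hal hk'] at h8
      exact h8.symm
  · rw [if_neg (fun h => hk h.1)]
    refine Finset.sum_eq_zero fun L _ => ?_
    rw [if_neg hk]

/-- HKC for `Sf` -/
theorem Sf_hkc (hkc : HkcStmt) [Fact ℓ.Prime] (hM : (ℓ : integralClosure ℤ ℂ) ∈ M) (hℓ : ℓ ≠ 2)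
    (hF : Fq ℓ V₀ E₀) {B : Bk (FF M) V₀ G} (hB : Sb ℓ M E₀ B) (hPE : PE ℓ n m G)
    {A : Subgroup V₀} (hA : A ⊔ Subgroup.zpowers κ = ⊤) {Φ : G → G → ℂ}
    (h3 : ∀ z y, ∀ v ∈ B.C A, Φ (v * z * v⁻¹) (y * v⁻¹) = Φ z y)
    (h4 : ∀ z y, ∀ v ∈ B.C A, Φ z (v * y) = Φ z y) :
    Sf B m κ A Φ = (Nat.card (B.C A) : ℂ)⁻¹ ^ 2 * ∑ᶠ χ ∈ Ch B A, cv (fc B A κ) χ *
      ∑ᶠ v ∈ {v : G × G | v.1 ∈ B.C A ∧ v.2 * v.1 * v.2⁻¹ ∈ B.C A},
        Φ (v.1 ^ m) v.2 * (χ (v.2 * v.1 * v.2⁻¹) * χ v.1⁻¹) := by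
  classical
  rw [← hkc ℓ M hM hℓ V₀ G E₀ hF B hB n m hPE A κ Φ h3 h4, hA]
  unfold Sf
  congr 1
  rw [finsum_eq_sum_of_fintype]
  refine Finset.sum_congr rfl fun t _ => ?_
  congr 1
  rw [finsum_mem_def, finsum_eq_sum_of_fintype]
  refine Finset.sum_congr rfl fun x _ => ?_
  rw [Set.indicator_apply]
  rfl

/-- sums over a subgroup -/
theorem sum_mem (H : Subgroup G) [Fintype H] [DecidablePred (· ∈ H)] (f : G → ℂ) :
    ∑ x : G, (if x ∈ H then f x else 0) = ∑ x : H, f x := by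
  classical
  rw [← Finset.sum_filter]
  exact Finset.sum_subtype _ (fun x => by simp) f

theorem ch_norm {B : Bk (FF M) V₀ G} {A : Subgroup V₀} {χ : G → ℂ} (hχ : χ ∈ Ch B A) :
    ∑ x : G, χ x * χ x⁻¹ = Nat.card (B.C A) := by
  classical
  have := Fintype.ofFinite (B.C A)
  have h1 : ∑ x : G, χ x * χ x⁻¹ = ∑ x : G, (if x ∈ B.C A then χ x * χ x⁻¹ else 0) := by
    refine Finset.sum_congr rfl fun x _ => ?_
    split_ifs with h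
    · rfl
    · rw [hχ.1 x h, zero_mul]
  rw [h1, sum_mem]
  have h2 := irr_orth_self hχ.2.1
  rw [Nat.card_eq_fintype_card, ← h2]
  rfl

open Classical in
/-- Step 2: the part where `y` commutes with `a` -/
theorem Sf_one (hkc : HkcStmt) [Fact ℓ.Prime] (hM : (ℓ : integralClosure ℤ ℂ) ∈ M) (hℓ : ℓ ≠ 2)
    (hF : Fq ℓ V₀ E₀) {B : Bk (FF M) V₀ G} (hB : Sb ℓ M E₀ B) (hPE : PE ℓ n m G)
    (hA : Subgroup.zpowers w ⊔ Subgroup.zpowers κ = ⊤) (q : ℂ)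
    (h3 : ∀ z y, ∀ v ∈ B.C (Subgroup.zpowers w),
      (fun _ y => if Commute y (B.i w)⁻¹ then q else 0 : G → G → ℂ) (v * z * v⁻¹) (y * v⁻¹) =
      (fun _ y => if Commute y (B.i w)⁻¹ then q else 0 : G → G → ℂ) z y)
    (h4 : ∀ z y, ∀ v ∈ B.C (Subgroup.zpowers w),
      (fun _ y => if Commute y (B.i w)⁻¹ then q else 0 : G → G → ℂ) z (v * y) =
      (fun _ y => if Commute y (B.i w)⁻¹ then q else 0 : G → G → ℂ) z y) :
    Sf B m κ (Subgroup.zpowers w) (fun _ y => if Commute y (B.i w)⁻¹ then q else 0) =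
      q * L1A B (Subgroup.zpowers w) κ := by
  rw [Sf_hkc hkc hM hℓ hF hB hPE hA h3 h4]
  obtain ⟨A, hAd⟩ : ∃ A, A = Subgroup.zpowers w := ⟨_, rfl⟩
  have hmem : ∀ y, Commute y (B.i w)⁻¹ ↔ y ∈ B.C A := by
    intro y
    rw [hAd]
    exact (memC B w y).symm
  rw [← hAd]
  have := Fintype.ofFinite (B.C A)
  have hfin := H10W.ch_fin B A
  have hinner : ∀ χ ∈ Ch B A, ∑ᶠ v ∈ {v : G × G | v.1 ∈ B.C A ∧ v.2 * v.1 * v.2⁻¹ ∈ B.C A},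
      (if Commute v.2 (B.i w)⁻¹ then q else 0) * (χ (v.2 * v.1 * v.2⁻¹) * χ v.1⁻¹) =
      q * (Nat.card (B.C A) : ℂ) ^ 2 := by
    intro χ hχ
    rw [finsum_mem_def, finsum_eq_sum_of_fintype, Fintype.sum_prod_type_right]
    have h5 : ∀ y : G, ∑ x : G, Set.indicator {v : G × G | v.1 ∈ B.C A ∧
        v.2 * v.1 * v.2⁻¹ ∈ B.C A} (fun v => (if Commute v.2 (B.i w)⁻¹ then q else 0) *
          (χ (v.2 * v.1 * v.2⁻¹) * χ v.1⁻¹)) (x, y) =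
        if y ∈ B.C A then q * (Nat.card (B.C A) : ℂ) else 0 := by
      intro y
      by_cases hy : y ∈ B.C A
      · rw [if_pos hy, ← ch_norm hχ, Finset.mul_sum]
        refine Finset.sum_congr rfl fun x _ => ?_
        rw [Set.indicator_apply]
        by_cases hx : x ∈ B.C A
        · have h6 : y * x * y⁻¹ ∈ B.C A :=
            (B.C A).mul_mem ((B.C A).mul_mem hy hx) ((B.C A).inv_mem hy)
          rw [if_pos (show (x, y) ∈ {v : G × G | v.1 ∈ B.C A ∧ v.2 * v.1 * v.2⁻¹ ∈ B.C A} from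
            ⟨hx, h6⟩)]
          show (if Commute y (B.i w)⁻¹ then q else 0) * (χ (y * x * y⁻¹) * χ x⁻¹) = _
          rw [if_pos ((hmem y).2 hy)]
          have h7 := irr_conj hχ.2.1 (⟨x, hx⟩ : B.C A) ⟨y, hy⟩
          have h8 : χ (y * x * y⁻¹) = χ x := h7
          rw [h8]
        · rw [if_neg (show (x, y) ∉ {v : G × G | v.1 ∈ B.C A ∧ v.2 * v.1 * v.2⁻¹ ∈ B.C A} from
            fun h => hx h.1), hχ.1 x hx, zero_mul, mul_zero]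
      · rw [if_neg hy]
        refine Finset.sum_eq_zero fun x _ => ?_
        have h9 : (if Commute y (B.i w)⁻¹ then q else 0) = 0 :=
          if_neg (fun h => hy ((hmem y).1 h))
        rw [Set.indicator_apply]
        show (if _ then (if Commute y (B.i w)⁻¹ then q else 0) * (χ (y * x * y⁻¹) * χ x⁻¹)
          else 0) = 0
        rw [h9, zero_mul, ite_self]
    rw [Finset.sum_congr rfl fun y _ => h5 y, sum_mem, Finset.sum_const, Finset.card_univ,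
      nsmul_eq_mul, Nat.card_eq_fintype_card]
    ring
  unfold L1A
  rw [finsum_mem_eq_finite_toFinset_sum _ hfin, finsum_mem_eq_finite_toFinset_sum _ hfin,
    Finset.mul_sum, Finset.mul_sum]
  refine Finset.sum_congr rfl fun χ hχ => ?_
  rw [hinner χ (hfin.mem_toFinset.1 hχ)]
  have hc : (Nat.card (B.C A) : ℂ) ≠ 0 := by exact_mod_cast Nat.card_pos.ne'
  field_simp

open Classical in
/-- FIB for one fibre -/
theorem fib_zero (fib : FibStmt) [Fact ℓ.Prime] (hM : (ℓ : integralClosure ℤ ℂ) ∈ M)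
    (hℓ : ℓ ≠ 2) (hF : Fq ℓ V₀ E₀) {B : Bk (FF M) V₀ G} (hB : Sb ℓ M E₀ B) {χ : G → ℂ}
    (hχ : χ ∈ Ch B (Subgroup.zpowers w)) {y z : G} (hz : El ℓ z)
    (hzc : Commute (B.i w)⁻¹ z) (hz1 : z ^ ℓ ≠ 1) {j : ℕ} (hj : Rr (B.i w)⁻¹ 1 j z y) :
    ∑ x : G, (if x ∈ B.C (Subgroup.zpowers w) ∧ x * z = z * x ∧ Reg ℓ x then
      χ (y * (z * x) * y⁻¹) * χ (z * x)⁻¹ else 0) = 0 := by
  obtain ⟨a, ha⟩ : ∃ a, a = (B.i w)⁻¹ := ⟨_, rfl⟩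
  rw [← ha] at hzc hj
  have hj' : y⁻¹ * a * y = a * z ^ j := by
    unfold Rr at hj
    rwa [pow_one] at hj
  have hzm : z ∈ B.C (Subgroup.zpowers w) := by
    rw [memC, ← ha]
    exact hzc.symm
  have hyz : y⁻¹⁻¹ * z * y⁻¹ ∈ B.C (Subgroup.zpowers w) := by
    rw [memC, ← ha, inv_inv]
    have h1 : Commute z (y⁻¹ * a * y) := by
      rw [hj']
      exact hzc.symm.mul_right ((Commute.refl z).pow_right j)
    show y * z * y⁻¹ * a = a * (y * z * y⁻¹)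
    calc y * z * y⁻¹ * a = y * (z * (y⁻¹ * a * y)) * y⁻¹ := by group
      _ = y * ((y⁻¹ * a * y) * z) * y⁻¹ := by rw [h1.eq]
      _ = a * (y * z * y⁻¹) := by group
  have hq : ∀ t : ℤ, y⁻¹ * B.i (w ^ t) * y⁻¹⁻¹ = B.i (w ^ t) * z ^ (-(j * t)) := by
    intro t
    have h1 : B.i (w ^ t) = a ^ (-t) := by rw [ha, map_zpow, inv_zpow', neg_neg]
    have h2 := conj_zpow (i := -t) (a := y⁻¹) (b := a)
    rw [h1, ← h2, inv_inv, hj', (hzc.pow_right j).mul_zpow, ← zpow_natCast, ← zpow_mul]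
    congr 2
    ring
  by_contra hne
  have hfib := fib ℓ M hM hℓ V₀ G E₀ hF B hB (Subgroup.zpowers w) (Subgroup.zpowers w) χ hχ χ hχ
    y⁻¹ z hz hzm hyz ?_ ?_ ?_
  · obtain ⟨-, -, -, -, -, g, -, -, -, v, -, hv⟩ := hfib
    apply hz1
    rw [hv, conj_pow, ← map_pow, hF.ex, map_one, mul_one, mul_inv_cancel]
  · intro q hq'
    obtain ⟨t, rfl⟩ := Subgroup.mem_zpowers_iff.1 hq'
    exact ⟨w ^ t, hq', _, hq t⟩
  · intro p hp'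
    obtain ⟨t, rfl⟩ := Subgroup.mem_zpowers_iff.1 hp'
    refine ⟨w ^ t, hp', j * t, ?_⟩
    rw [hq t, mul_assoc, ← zpow_add, neg_add_cancel, zpow_zero, mul_one]
  · intro h0
    apply hne
    rw [finsum_mem_def, finsum_eq_sum_of_fintype] at h0
    have h1 := congrArg (starRingEnd ℂ) h0
    rw [map_zero, map_sum] at h1
    refine (Finset.sum_congr rfl fun x _ => ?_).trans h1
    rw [Set.indicator_apply]
    by_cases hx : x ∈ B.C (Subgroup.zpowers w) ∧ x * z = z * x ∧ Reg ℓ x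
    · rw [if_pos hx, if_pos (show x ∈ {x : G | x ∈ B.C (Subgroup.zpowers w) ∧ x * z = z * x ∧
        Reg ℓ x} from hx), map_mul, H10W.ch_star hχ, H10W.ch_star hχ]
      have h9 : (y⁻¹⁻¹ * (z * x)⁻¹ * y⁻¹)⁻¹ = y * (z * x) * y⁻¹ := by group
      rw [h9, mul_comm]
    · rw [if_neg hx, if_neg (show x ∉ {x : G | x ∈ B.C (Subgroup.zpowers w) ∧ x * z = z * x ∧
        Reg ℓ x} from hx), map_zero]

/-- Step 3: the part without contribution -/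
theorem Sf_zero (hkc : HkcStmt) (fib : FibStmt) [Fact ℓ.Prime]
    (hM : (ℓ : integralClosure ℤ ℂ) ∈ M) (hℓ : ℓ ≠ 2)
    (hF : Fq ℓ V₀ E₀) {B : Bk (FF M) V₀ G} (hB : Sb ℓ M E₀ B) (hPE : PE ℓ n m G)
    (hA : Subgroup.zpowers w ⊔ Subgroup.zpowers κ = ⊤) {Φ : G → G → ℂ}
    (h3 : ∀ z y, ∀ v ∈ B.C (Subgroup.zpowers w), Φ (v * z * v⁻¹) (y * v⁻¹) = Φ z y)
    (h4 : ∀ z y, ∀ v ∈ B.C (Subgroup.zpowers w), Φ z (v * y) = Φ z y)
    (h5 : ∀ z y, Commute (B.i w)⁻¹ z → Φ z y ≠ 0 → z ^ ℓ ≠ 1 ∧ ∃ j, Rr (B.i w)⁻¹ 1 j z y) :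
    Sf B m κ (Subgroup.zpowers w) Φ = 0 := by
  classical
  rw [Sf_hkc hkc hM hℓ hF hB hPE hA h3 h4]
  have hfin := H10W.ch_fin B (Subgroup.zpowers w)
  rw [finsum_mem_eq_finite_toFinset_sum _ hfin, Finset.sum_eq_zero, mul_zero]
  intro χ hχ
  have hχ' := hfin.mem_toFinset.1 hχ
  rw [finsum_mem_def, finsum_eq_sum_of_fintype, Fintype.sum_prod_type_right,
    Finset.sum_eq_zero, mul_zero]
  intro y _
  rw [← Finset.sum_fiberwise Finset.univ (fun x : G => x ^ m)]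
  refine Finset.sum_eq_zero fun z _ => ?_
  by_cases hΦ : Φ z y = 0
  · refine Finset.sum_eq_zero fun x hx => ?_
    have hx' : x ^ m = z := (Finset.mem_filter.1 hx).2
    rw [Set.indicator_apply]
    split_ifs
    · show Φ (x ^ m) y * _ = 0
      rw [hx', hΦ, zero_mul]
    · rfl
  by_cases hex : ∃ x : G, x ∈ B.C (Subgroup.zpowers w) ∧ x ^ m = z
  · obtain ⟨x₀, hx₀, hxz⟩ := hex
    have hz : El ℓ z := by
      rw [← hxz]
      exact SO.H70.el_pow hPE x₀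
    have hzC : z ∈ B.C (Subgroup.zpowers w) := by
      rw [← hxz]
      exact Subgroup.pow_mem _ hx₀ m
    have hzc : Commute (B.i w)⁻¹ z := ((memC B w z).1 hzC).symm
    obtain ⟨hz1, j, hj⟩ := h5 z y hzc hΦ
    have h6 := fib_zero fib hM hℓ hF hB hχ' hz hzc hz1 hj
    rw [Finset.sum_filter, ← Equiv.sum_comp (Equiv.mulLeft z)]
    have h7 := congrArg (fun t => Φ z y * t) h6
    simp only [mul_zero, Finset.mul_sum] at h7
    refine (Finset.sum_congr rfl fun x _ => ?_).trans h7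
    show (if (z * x) ^ m = z then Set.indicator {v : G × G | v.1 ∈ B.C (Subgroup.zpowers w) ∧
      v.2 * v.1 * v.2⁻¹ ∈ B.C (Subgroup.zpowers w)} (fun v => Φ (v.1 ^ m) v.2 *
        (χ (v.2 * v.1 * v.2⁻¹) * χ v.1⁻¹)) (z * x, y) else 0) = _
    by_cases h8 : x * z = z * x ∧ Reg ℓ x
    · have h9 : (z * x) ^ m = z := (part_iff hPE hz).2 h8
      rw [if_pos h9, Set.indicator_apply]
      have h10 : z * x ∈ B.C (Subgroup.zpowers w) ↔ x ∈ B.C (Subgroup.zpowers w) :=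
        Subgroup.mul_mem_cancel_left _ hzC
      by_cases h11 : x ∈ B.C (Subgroup.zpowers w)
      · rw [if_pos (show x ∈ B.C (Subgroup.zpowers w) ∧ x * z = z * x ∧ Reg ℓ x from
          ⟨h11, h8⟩)]
        by_cases h12 : y * (z * x) * y⁻¹ ∈ B.C (Subgroup.zpowers w)
        · rw [if_pos (show (z * x, y) ∈ {v : G × G | v.1 ∈ B.C (Subgroup.zpowers w) ∧
            v.2 * v.1 * v.2⁻¹ ∈ B.C (Subgroup.zpowers w)} from ⟨h10.2 h11, h12⟩)]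
          show Φ ((z * x) ^ m) y * _ = _
          rw [h9]
        · rw [if_neg (show (z * x, y) ∉ {v : G × G | v.1 ∈ B.C (Subgroup.zpowers w) ∧
            v.2 * v.1 * v.2⁻¹ ∈ B.C (Subgroup.zpowers w)} from fun h => h12 h.2),
            hχ'.1 _ h12, zero_mul, mul_zero]
      · rw [if_neg (show ¬ (x ∈ B.C (Subgroup.zpowers w) ∧ x * z = z * x ∧ Reg ℓ x) from
          fun h => h11 h.1), if_neg (show (z * x, y) ∉ {v : G × G |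
            v.1 ∈ B.C (Subgroup.zpowers w) ∧ v.2 * v.1 * v.2⁻¹ ∈ B.C (Subgroup.zpowers w)} from
            fun h => h11 (h10.1 h.1)), mul_zero]
    · have h9 : ¬ (z * x) ^ m = z := fun h => h8 ((part_iff hPE hz).1 h)
      rw [if_neg h9, if_neg (show ¬ (x ∈ B.C (Subgroup.zpowers w) ∧ x * z = z * x ∧ Reg ℓ x) from
        fun h => h8 h.2), mul_zero]
  · refine Finset.sum_eq_zero fun x hx => ?_
    have hx' : x ^ m = z := (Finset.mem_filter.1 hx).2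
    rw [Set.indicator_apply, if_neg]
    intro h
    exact hex ⟨x, h.1, hx'⟩

open Classical in
/-- Step 4: the numbers `nI` -/
theorem Sf_nI (B : Bk (FF M) V₀ G) (q : ℕ → ℂ) :
    Sf B m κ (Subgroup.zpowers w) (fun z y => ∑ i₀ ∈ Finset.Icc 1 (ℓ - 1), q i₀ *
      (if Rr (B.i w)⁻¹ 1 i₀ z y ∧ z ^ i₀ ≠ 1 ∧ z ^ ℓ = 1 then 1 else 0)) =
    ∑ i₀ ∈ Finset.Icc 1 (ℓ - 1), q i₀ * nI ℓ B m κ w i₀ := by
  have h1 : ∀ i₀, nI ℓ B m κ w i₀ = (Nat.card (B.C ⊤) : ℂ)⁻¹ * ∑ t : G, bh B ⊤ t *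
      ∑ x : G × G, (if SO.kap x.1 x.2 = B.i κ * t ∧ x.1 ∈ B.C (Subgroup.zpowers w) then
        (if Rr (B.i w)⁻¹ 1 i₀ (x.1 ^ m) x.2 ∧ (x.1 ^ m) ^ i₀ ≠ 1 ∧ (x.1 ^ m) ^ ℓ = 1 then
          (1 : ℂ) else 0) else 0) := by
    intro i₀
    unfold nI
    rw [finsum_eq_sum_of_fintype]
    congr 1
    refine Finset.sum_congr rfl fun t _ => ?_
    congr 1
    rw [H10W.ncard_sum (fun x : G × G => SO.kap x.1 x.2 = B.i κ * t ∧
      B.i w * x.1 = x.1 * B.i w ∧ x.2⁻¹ * (B.i w)⁻¹ * x.2 = (B.i w)⁻¹ * (x.1 ^ m) ^ i₀ ∧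
      (x.1 ^ m) ^ i₀ ≠ 1 ∧ (x.1 ^ m) ^ ℓ = 1)]
    refine Finset.sum_congr rfl fun x _ => ?_
    have h2 : x.1 ∈ B.C (Subgroup.zpowers w) ↔ B.i w * x.1 = x.1 * B.i w := by
      rw [memC]
      constructor
      · intro h
        have h3 := h.inv_right
        rw [inv_inv] at h3
        exact h3.symm
      · intro h
        exact (show Commute x.1 (B.i w) from h.symm).inv_right
    have h3 : Rr (B.i w)⁻¹ 1 i₀ (x.1 ^ m) x.2 ↔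
        x.2⁻¹ * (B.i w)⁻¹ * x.2 = (B.i w)⁻¹ * (x.1 ^ m) ^ i₀ := by
      unfold Rr
      rw [pow_one]
    rw [h2, h3, ← ite_and]
    exact if_congr ⟨fun h => ⟨⟨h.1, h.2.1⟩, h.2.2⟩, fun h => ⟨h.1.1, h.1.2, h.2⟩⟩ rfl rfl
  simp only [h1]
  unfold Sf
  have h2 : ∀ (t : G) (x : G × G), (if SO.kap x.1 x.2 = B.i κ * t ∧
      x.1 ∈ B.C (Subgroup.zpowers w) then ∑ i₀ ∈ Finset.Icc 1 (ℓ - 1), q i₀ *
      (if Rr (B.i w)⁻¹ 1 i₀ (x.1 ^ m) x.2 ∧ (x.1 ^ m) ^ i₀ ≠ 1 ∧ (x.1 ^ m) ^ ℓ = 1 then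
        (1 : ℂ) else 0) else 0) = ∑ i₀ ∈ Finset.Icc 1 (ℓ - 1), q i₀ *
      (if SO.kap x.1 x.2 = B.i κ * t ∧ x.1 ∈ B.C (Subgroup.zpowers w) then
        (if Rr (B.i w)⁻¹ 1 i₀ (x.1 ^ m) x.2 ∧ (x.1 ^ m) ^ i₀ ≠ 1 ∧ (x.1 ^ m) ^ ℓ = 1 then
          (1 : ℂ) else 0) else 0) := by
    intro t x
    split_ifs with h
    · rfl
    · simp
  simp only [h2]
  have h3 : ∀ t : G, bh B ⊤ t * ∑ x : G × G, ∑ i₀ ∈ Finset.Icc 1 (ℓ - 1), q i₀ *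
      (if SO.kap x.1 x.2 = B.i κ * t ∧ x.1 ∈ B.C (Subgroup.zpowers w) then
        (if Rr (B.i w)⁻¹ 1 i₀ (x.1 ^ m) x.2 ∧ (x.1 ^ m) ^ i₀ ≠ 1 ∧ (x.1 ^ m) ^ ℓ = 1 then
          (1 : ℂ) else 0) else 0) = ∑ i₀ ∈ Finset.Icc 1 (ℓ - 1), q i₀ * (bh B ⊤ t *
      ∑ x : G × G, (if SO.kap x.1 x.2 = B.i κ * t ∧ x.1 ∈ B.C (Subgroup.zpowers w) then
        (if Rr (B.i w)⁻¹ 1 i₀ (x.1 ^ m) x.2 ∧ (x.1 ^ m) ^ i₀ ≠ 1 ∧ (x.1 ^ m) ^ ℓ = 1 then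
          (1 : ℂ) else 0) else 0)) := by
    intro t
    rw [Finset.sum_comm, Finset.mul_sum]
    refine Finset.sum_congr rfl fun i₀ _ => ?_
    rw [← Finset.mul_sum]
    ring
  simp only [h3]
  rw [Finset.sum_comm, Finset.mul_sum]
  refine Finset.sum_congr rfl fun i₀ _ => ?_
  rw [← Finset.mul_sum]
  ring

end sums

/-- Row TFA. -/
theorem tfa (hkc : HkcStmt) (fib : FibStmt) : TfaStmt := by
  classical
  intro ℓ _ M _ hM hℓ V₀ G _ _ _ _ E₀ hF B hB n m r hr hn hPE ρ₁ ρ₂ x₁ x₂ c d F₁₃ F₁₂ K h₁ h₂ hY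
    κ w σ hw hκ
  have hp : ℓ.Prime := Fact.out
  have := Fintype.ofFinite G
  have hn1 : 1 < n := by
    rw [hn]
    exact Nat.one_lt_pow hr.ne' hp.one_lt
  have hX := hY.toFX
  have hA := sup_top hF hw hκ
  rw [t5_eq hF h₁ h₂ hX B hw hκ]
  obtain ⟨q, hq⟩ : ∃ q : ℂ, q = -(((x₁ (κ * w)⁻¹ * x₂ (σ⁻¹ (κ * w))⁻¹ : ℤ) : ℂ) / ℓ ^ 2) :=
    ⟨_, rfl⟩
  obtain ⟨cs, hcs⟩ : ∃ cs : ℕ → ℂ, cs = fun i₀ => ((F₁₂ {s | s.2.2.1 =
      (κ * w)⁻¹ ^ (s.2.1 : ℕ) ∧ s.2.2.2 = (σ⁻¹ (κ * w))⁻¹ ^ (s.2.1 : ℕ) ∧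
      (s.1 : ℕ) ≡ i₀ * (s.2.1 : ℕ) [MOD ℓ]} -
      (x₁ c⁻¹ * x₂ d⁻¹ : ℤ) / (ℓ : ℚ) ^ 2 : ℚ) : ℂ) := ⟨_, rfl⟩
  have hal : ((B.i w)⁻¹ : G) ^ ℓ = 1 := by rw [inv_pow, ← map_pow, hF.ex, map_one, inv_one]
  -- invariances
  have hta3 : ∀ z y, ∀ v ∈ B.C (Subgroup.zpowers w),
      ta n κ w σ (B.i w)⁻¹ (v * z * v⁻¹) (y * v⁻¹) = ta n κ w σ (B.i w)⁻¹ z y := by
    intro z y v hv
    ext s
    exact and_congr Iff.rfl (rr_conj ((memC B w v).1 hv) _ _ z y)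
  have hta4 : ∀ z y, ∀ v ∈ B.C (Subgroup.zpowers w),
      ta n κ w σ (B.i w)⁻¹ z (v * y) = ta n κ w σ (B.i w)⁻¹ z y := by
    intro z y v hv
    ext s
    exact and_congr Iff.rfl (rr_left ((memC B w v).1 hv) _ _ z y)
  have hc3 : ∀ y, ∀ v ∈ B.C (Subgroup.zpowers w),
      (Commute (y * v⁻¹) (B.i w)⁻¹ ↔ Commute y (B.i w)⁻¹) := by
    intro y v hv
    rw [← memC, ← memC]
    exact Subgroup.mul_mem_cancel_right _ (Subgroup.inv_mem _ hv)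
  have hc4 : ∀ y, ∀ v ∈ B.C (Subgroup.zpowers w),
      (Commute (v * y) (B.i w)⁻¹ ↔ Commute y (B.i w)⁻¹) := by
    intro y v hv
    rw [← memC, ← memC]
    exact Subgroup.mul_mem_cancel_left _ hv
  have hcp : ∀ (z v : G) (k : ℕ), (v * z * v⁻¹) ^ k = 1 ↔ z ^ k = 1 := by
    intro z v k
    rw [conj_pow, conj_eq_one_iff]
  have e1 := Sf_one (m := m) hkc hM hℓ hF hB hPE hA q (fun z y v hv => by
    simp only [hc3 y v hv]) (fun z y v hv => by simp only [hc4 y v hv])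
  have e2 := Sf_nI (ℓ := ℓ) (m := m) (κ := κ) (w := w) B cs
  have e3 := Sf_zero (m := m) hkc fib hM hℓ hF hB hPE hA (Φ := fun z y =>
    ((F₁₂ (ta n κ w σ (B.i w)⁻¹ z y) - (x₁ c⁻¹ * x₂ d⁻¹ : ℤ) / (ℓ : ℚ) ^ 2 : ℚ) : ℂ) -
      (if Commute y (B.i w)⁻¹ then q else 0) -
      ∑ i₀ ∈ Finset.Icc 1 (ℓ - 1), cs i₀ *
        (if Rr (B.i w)⁻¹ 1 i₀ z y ∧ z ^ i₀ ≠ 1 ∧ z ^ ℓ = 1 then 1 else 0))
    (fun z y v hv => by
      simp only [hta3 z y v hv, hc3 y v hv, rr_conj ((memC B w v).1 hv), hcp, ne_eq])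
    (fun z y v hv => by
      simp only [hta4 z y v hv, hc4 y v hv, rr_left ((memC B w v).1 hv)])
    (fun z y hz hne => by
      rw [hq, hcs] at hne
      exact key hF hn1 h₁ h₂ hX hal hz hne)
  rw [Sf_sub, Sf_sub, e1, e2, sub_sub, sub_eq_zero] at e3
  rw [e3, hq, hcs]

end Pool.Agent.PP.SD.H45
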